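import Pool.Agent.Q289.PK.Mod

/-!
Which bits determine which variables; measurability; departures and visits.
-/

set_option autoImplicit false

namespace Pool.Agent.Q289.PK

open FreeGroup MeasureTheory Measure Finset
open Pool.Agent.TH996.Park Pool.Agent.TH996.Parking
open scoped ENNReal

/-- the bits of the ancestors of `y`, without the directions at `y` -/
def SA (y : F2) : Set JJ :=
  {j | match j with
    | .inl v => Anc v y
    | .inr (_, v, _) => Anc v y ∧ v ≠ y}

/-- the bits of the ancestors of `y` -/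
def SB (y : F2) : Set JJ :=
  {j | match j with
    | .inl v => Anc v y
    | .inr (_, v, _) => Anc v y}

lemma SA_sub_SB (y : F2) : SA y ⊆ SB y := by
  rintro (v | ⟨t, v, i⟩) h
  · exact h
  · exact h.1

lemma SB_sub_SA (y : F2) (g : Bool) : SB (y * (of g)⁻¹) ⊆ SA y := by
  rintro (v | ⟨t, v, i⟩) h
  · exact anc_of h
  · refine ⟨anc_of h, ?_⟩
    rintro rfl
    exact not_anc h

lemma SB_disj (y : F2) : Disjoint (SB (y * (of true)⁻¹)) (SB (y * (of false)⁻¹)) := by
  rw [Set.disjoint_left]
  rintro (v | ⟨t, v, i⟩) h1 h2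
  · exact anc_disj h1 h2
  · exact anc_disj h1 h2

lemma not_mem_SB (y : F2) (g : Bool) : (.inl y : JJ) ∉ SB (y * (of g)⁻¹) := fun h => not_anc h

lemma dep_nn {t : ℕ} {z : F2} (g : Bool) (h : DependsOn (cc t z) (SA z)) :
    DependsOn (nn t z g) (SB z) := by
  intro ω ω' h1
  unfold nn
  rw [h fun j hj => h1 j (SA_sub_SB z hj)]
  congr 1
  refine filter_congr fun i _ => ?_
  rw [h1 (.inr (t, z, i)) (anc_refl z)]

lemma dep_cf (t : ℕ) : ∀ y, DependsOn (cc t y) (SA y) ∧ DependsOn (ff t y) (SA y) := by
  induction t with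
  | zero =>
    intro y
    refine ⟨fun ω ω' h => ?_, fun ω ω' h => ?_⟩
    · rw [cc_zero, cc_zero, h (.inl y) (anc_refl y)]
    · rw [ff_zero, ff_zero, h (.inl y) (anc_refl y)]
  | succ t ih =>
    intro y
    have ha : DependsOn (aa t y) (SA y) := by
      intro ω ω' h
      rw [aa_eq, aa_eq, dep_nn true (ih _).1 fun j hj => h j (SB_sub_SA y true hj),
        dep_nn false (ih _).1 fun j hj => h j (SB_sub_SA y false hj)]
    refine ⟨fun ω ω' h => ?_, fun ω ω' h => ?_⟩
    · rw [cc_succ, cc_succ, ha h, (ih y).2 h]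
    · rw [ff_succ, ff_succ, ha h, (ih y).2 h]

lemma measurable_cc (t : ℕ) (y : F2) : Measurable (cc t y) :=
  ((measurable_CF SS.nb t).1 y).comp (measurable_emb.comp measurable_Phi)

lemma measurable_ff (t : ℕ) (y : F2) : Measurable (ff t y) :=
  ((measurable_CF SS.nb t).2.1 y).comp (measurable_emb.comp measurable_Phi)

lemma measurable_aa (t : ℕ) (y : F2) : Measurable (aa t y) :=
  ((measurable_CF SS.nb t).2.2 y).comp (measurable_emb.comp measurable_Phi)

lemma measurable_nn (t : ℕ) (z : F2) (g : Bool) : Measurable (nn t z g) := by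
  have h : Measurable fun q : ℕ × (JJ → Bool) => ((range q.1).filter
      fun i => q.2 (.inr (t, z, i)) = g).card := by
    refine measurable_from_prod_countable_right fun n => ?_
    simp only [card_filter]
    refine Finset.measurable_fun_sum _ fun i _ => ?_
    refine Measurable.ite ?_ measurable_const measurable_const
    have hme : Measurable fun ω : JJ → Bool => ω (.inr (t, z, i)) := measurable_pi_apply _
    exact hme (measurableSet_singleton g)
  exact h.comp ((measurable_cc t z).prodMk measurable_id)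

/-- departures -/
noncomputable def dd (T : ℕ) (y : F2) (ω : JJ → Bool) : ℕ := ∑ t ∈ range T, cc t y ω
/-- visits -/
noncomputable def vv (T : ℕ) (y : F2) (ω : JJ → Bool) : ℕ := ∑ t ∈ range T, aa t y ω
/-- departures in the direction `g` -/
noncomputable def xx (T : ℕ) (z : F2) (g : Bool) (ω : JJ → Bool) : ℕ := ∑ t ∈ range T, nn t z g ω

lemma vv_eq (T : ℕ) (y : F2) (ω : JJ → Bool) : vv T y ω =
    xx T (y * (of true)⁻¹) true ω + xx T (y * (of false)⁻¹) false ω := by
  unfold vv xx
  rw [← sum_add_distrib]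
  exact sum_congr rfl fun t _ => aa_eq t y ω

lemma measurable_dd (T : ℕ) (y : F2) : Measurable (dd T y) :=
  Finset.measurable_fun_sum _ fun t _ => measurable_cc t y

lemma measurable_vv (T : ℕ) (y : F2) : Measurable (vv T y) :=
  Finset.measurable_fun_sum _ fun t _ => measurable_aa t y

lemma measurable_xx (T : ℕ) (z : F2) (g : Bool) : Measurable (xx T z g) :=
  Finset.measurable_fun_sum _ fun t _ => measurable_nn t z g

lemma dep_xx (T : ℕ) (z : F2) (g : Bool) : DependsOn (xx T z g) (SB z) := by
  intro ω ω' h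
  unfold xx
  exact sum_congr rfl fun t _ => dep_nn g (dep_cf t z).1 h

lemma dd_rec (T : ℕ) (y : F2) (ω : JJ → Bool) :
    (ω (.inl y) = true → ff T y ω = 0 ∧ dd (T + 1) y ω = vv T y ω + 1) ∧
    (ω (.inl y) = false → ff T y ω = 1 - vv T y ω ∧ dd (T + 1) y ω = vv T y ω - 1) := by
  induction T with
  | zero =>
    have e1 : dd (0 + 1) y ω = cc 0 y ω := by simp [dd]
    have e2 : vv 0 y ω = 0 := by simp [vv]
    rw [e1, e2, cc_zero, ff_zero]
    constructor
    · intro h; rw [if_pos h, if_pos h]; exact ⟨rfl, rfl⟩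
    · intro h; rw [h]; simp
  | succ T ih =>
    have e1 : dd (T + 1 + 1) y ω = dd (T + 1) y ω + cc (T + 1) y ω := by
      unfold dd; rw [sum_range_succ]
    have e2 : vv (T + 1) y ω = vv T y ω + aa T y ω := by
      unfold vv; rw [sum_range_succ]
    rw [e1, e2, cc_succ, ff_succ]
    obtain ⟨i1, i2⟩ := ih
    constructor
    · intro h
      obtain ⟨a, b⟩ := i1 h
      omega
    · intro h
      obtain ⟨a, b⟩ := i2 h
      omega

end Pool.Agent.Q289.PK
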