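import Mathlib

/-!
The recursion of the generating functions.
-/

set_option autoImplicit false

namespace Pool.Agent.Q289.PK

open Real Filter Topology

/-- the points at which the generating functions are evaluated -/
noncomputable def sk (k : ℕ) : ℝ := 1 - (1 / 2) ^ k

lemma sk_zero : sk 0 = 0 := by simp [sk]

lemma sk_succ (k : ℕ) : (1 + sk k) / 2 = sk (k + 1) := by
  unfold sk; rw [pow_succ]; ring

lemma sk_nonneg (k : ℕ) : 0 ≤ sk k := by
  unfold sk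
  have : ((1:ℝ) / 2) ^ k ≤ 1 := pow_le_one₀ (by norm_num) (by norm_num)
  linarith

lemma sk_le (k : ℕ) : sk k ≤ 1 := by
  unfold sk
  have : 0 < ((1:ℝ) / 2) ^ k := by positivity
  linarith

lemma sk_half (k : ℕ) : 1 / 2 ≤ sk (k + 1) := by
  rw [← sk_succ]
  linarith [sk_nonneg k]

structure Rec (p : ℝ) (F G : ℕ → ℝ → ℝ) : Prop where
  G_nonneg : ∀ T s, 0 ≤ s → s ≤ 1 → 0 ≤ G T s
  G_le : ∀ T s, 0 ≤ s → s ≤ 1 → G T s ≤ 1
  F_mono : ∀ T s, 0 ≤ s → s ≤ 1 → F T 0 ≤ F T s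
  F_eq : ∀ T s, 0 ≤ s → s ≤ 1 → F T s = G T ((1 + s) / 2) ^ 2
  G_succ : ∀ T s, 0 < s → s ≤ 1 → G (T + 1) s =
    p * s * F T s + (1 - p) * ((F T s - F T 0) / s + F T 0)
  F_zero : ∀ T, 1 - 2 * p ≤ (1 - p) * F T 0

section

variable {p : ℝ} {F G : ℕ → ℝ → ℝ} (h : Rec p F G) (hp0 : 0 ≤ p) (hp1 : p < 1 / 2)

/-- minus `2 ^ k` times the logarithm of the generating function at `1 - 2 ^ (-k)` -/
noncomputable def LL (F : ℕ → ℝ → ℝ) (T k : ℕ) : ℝ := -(2 ^ k * Real.log (F T (sk k)))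

include h hp1 in
lemma F_pos (T : ℕ) (s : ℝ) (h0 : 0 ≤ s) (h1 : s ≤ 1) : 0 < F T s := by
  have h2 := h.F_zero T
  have h3 : 0 < (1 - p) * F T 0 := by linarith
  have h4 : 0 < F T 0 := by
    by_contra hc
    push Not at hc
    nlinarith
  exact h4.trans_le (h.F_mono T s h0 h1)

include h hp0 hp1 in
lemma LL_step (T k : ℕ) : LL F T (k + 1) ≤ LL F (T + 1) k + (1 / 2) ^ (k + 1) := by
  obtain ⟨s, hs⟩ : ∃ s, s = sk (k + 1) := ⟨_, rfl⟩
  have hs1 : s ≤ 1 := by rw [hs]; exact sk_le _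
  have hs2 : 1 / 2 ≤ s := by rw [hs]; exact sk_half _
  have hs0 : 0 < s := by linarith
  have hF1 : 0 < F (T + 1) (sk k) := F_pos h hp1 _ _ (sk_nonneg k) (sk_le k)
  have hFs : 0 < F T s := F_pos h hp1 _ _ hs0.le hs1
  have e1 : F (T + 1) (sk k) = G (T + 1) s ^ 2 := by
    rw [h.F_eq _ _ (sk_nonneg k) (sk_le k), sk_succ, hs]
  obtain ⟨g, hg⟩ : ∃ g, g = G (T + 1) s := ⟨_, rfl⟩
  have hg0 : 0 ≤ g := by rw [hg]; exact h.G_nonneg _ _ hs0.le hs1
  have hg1 : g ≤ 1 := by rw [hg]; exact h.G_le _ _ hs0.le hs1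
  rw [← hg] at e1
  have hgp : 0 < g := by
    rcases hg0.eq_or_lt with h0 | h0
    · rw [← h0] at e1
      rw [e1] at hF1
      norm_num at hF1
    · exact h0
  have e2 : g = p * s * F T s + (1 - p) * ((F T s - F T 0) / s + F T 0) := by
    rw [hg]; exact h.G_succ T s hs0 hs1
  -- the weight
  obtain ⟨w, hw⟩ : ∃ w, w = 1 + (1 - 2 * p) * (1 / s - 1) := ⟨_, rfl⟩
  have hinv : 1 ≤ 1 / s := by rw [le_div_iff₀ hs0]; linarith
  have hw1 : 1 ≤ w := by
    rw [hw]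
    have : 0 ≤ (1 - 2 * p) * (1 / s - 1) := mul_nonneg (by linarith) (by linarith)
    linarith
  obtain ⟨c, hc⟩ : ∃ c, c = p * s + (1 - p) / s := ⟨_, rfl⟩
  have hcw : c ≤ w * Real.exp ((1 - s) ^ 2) := by
    have h1 : c = w + p * (1 - s) ^ 2 / s := by
      rw [hc, hw]
      field_simp
      ring
    have h2 : p * (1 - s) ^ 2 / s ≤ (1 - s) ^ 2 := by
      rw [div_le_iff₀ hs0]
      nlinarith [sq_nonneg (1 - s)]
    have h3 : 1 + (1 - s) ^ 2 ≤ Real.exp ((1 - s) ^ 2) := by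
      have := Real.add_one_le_exp ((1 - s) ^ 2); linarith
    have h4 : 0 ≤ (1 - s) ^ 2 := sq_nonneg _
    calc c ≤ w + (1 - s) ^ 2 := by linarith
      _ ≤ w * (1 + (1 - s) ^ 2) := by nlinarith
      _ ≤ _ := mul_le_mul_of_nonneg_left h3 (by linarith)
  have key : g * w ≤ c * F T s := by
    have h1 : c * F T s = g + (1 - p) * F T 0 * (1 / s - 1) := by
      rw [e2, hc]; field_simp; ring
    have h2 : (1 - 2 * p) * (1 / s - 1) ≤ (1 - p) * F T 0 * (1 / s - 1) :=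
      mul_le_mul_of_nonneg_right (h.F_zero T) (by linarith)
    have h3 : 0 ≤ (1 - 2 * p) * (1 / s - 1) := mul_nonneg (by linarith) (by linarith)
    rw [h1, hw]
    nlinarith
  have hfin : g ≤ Real.exp ((1 - s) ^ 2) * F T s := by
    have h1 : g * w ≤ w * (Real.exp ((1 - s) ^ 2) * F T s) := by
      calc g * w ≤ c * F T s := key
        _ ≤ (w * Real.exp ((1 - s) ^ 2)) * F T s := mul_le_mul_of_nonneg_right hcw hFs.le
        _ = _ := by ring
    have hwp : 0 < w := by linarith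
    rw [mul_comm g w] at h1
    exact le_of_mul_le_mul_left h1 hwp
  have hlog : Real.log g ≤ (1 - s) ^ 2 + Real.log (F T s) := by
    have := Real.log_le_log hgp hfin
    rwa [Real.log_mul (Real.exp_pos _).ne' hFs.ne', Real.log_exp] at this
  have hlog2 : Real.log (F (T + 1) (sk k)) = 2 * Real.log g := by
    rw [e1, Real.log_pow]; norm_num
  have hδ : (1 - s) ^ 2 * 2 ^ (k + 1) = (1 / 2) ^ (k + 1) := by
    rw [hs]
    unfold sk
    rw [show 1 - (1 - (1 / 2 : ℝ) ^ (k + 1)) = (1 / 2) ^ (k + 1) by ring, sq, mul_assoc,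
      ← mul_pow]
    norm_num
  unfold LL
  rw [← hs, hlog2, ← hδ]
  have h2 : (0:ℝ) < 2 ^ k := by positivity
  have h3 : (2:ℝ) ^ (k + 1) = 2 * 2 ^ k := by ring
  rw [h3]
  nlinarith

include h hp0 hp1 in
lemma LL_le (k T : ℕ) : LL F T k ≤ LL F (T + k) 0 + (1 - (1 / 2) ^ k) := by
  induction k generalizing T with
  | zero => simp
  | succ k ih =>
    have h1 := LL_step h hp0 hp1 T k
    have h2 := ih (T + 1)
    have e : T + 1 + k = T + (k + 1) := by ring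
    rw [e] at h2
    have e2 : ((1:ℝ) / 2) ^ k = 2 * (1 / 2) ^ (k + 1) := by rw [pow_succ]; ring
    rw [e2] at h2
    linarith

include h hp0 hp1 in
lemma LL_bound (T k : ℕ) : LL F T k ≤ 1 + Real.log (1 / (1 - 2 * p)) := by
  have h1 := LL_le h hp0 hp1 k T
  have h2 : LL F (T + k) 0 ≤ Real.log (1 / (1 - 2 * p)) := by
    unfold LL
    rw [sk_zero, pow_zero, one_mul, one_div, Real.log_inv]
    apply neg_le_neg
    apply Real.log_le_log (by linarith)
    have h3 := h.F_zero (T + k)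
    have h4 := F_pos h hp1 (T + k) 0 le_rfl zero_le_one
    nlinarith
  have h5 : 0 < ((1:ℝ) / 2) ^ k := by positivity
  linarith

include h hp0 hp1 in
/-- the difference quotients of the generating functions of the departures are bounded -/
theorem G_quot (T k : ℕ) :
    2 ^ (k + 1) * (1 - G T (sk (k + 1))) ≤ 1 + Real.log (1 / (1 - 2 * p)) := by
  refine le_trans ?_ (LL_bound h hp0 hp1 T k)
  have hF : 0 < F T (sk k) := F_pos h hp1 _ _ (sk_nonneg k) (sk_le k)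
  have e1 : F T (sk k) = G T (sk (k + 1)) ^ 2 := by
    rw [h.F_eq _ _ (sk_nonneg k) (sk_le k), sk_succ]
  obtain ⟨g, hg⟩ : ∃ g, g = G T (sk (k + 1)) := ⟨_, rfl⟩
  have hg0 : 0 ≤ g := by rw [hg]; exact h.G_nonneg _ _ (sk_nonneg _) (sk_le _)
  rw [← hg] at e1 ⊢
  have hgp : 0 < g := by
    rcases hg0.eq_or_lt with h0 | h0
    · rw [← h0] at e1
      rw [e1] at hF
      norm_num at hF
    · exact h0
  unfold LL
  rw [e1, Real.log_pow]
  have h1 := Real.log_le_sub_one_of_pos hgp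
  have h2 : (0:ℝ) < 2 ^ k := by positivity
  push_cast
  rw [pow_succ]
  nlinarith

end

lemma one_sub_pow_ge {s : ℝ} (h0 : 0 ≤ s) (h1 : s ≤ 1) (n : ℕ) :
    (n : ℝ) * s ^ n * (1 - s) ≤ 1 - s ^ n := by
  induction n with
  | zero => simp
  | succ n ih =>
    have h2 : 0 ≤ s ^ n := pow_nonneg h0 n
    have h3 : s ^ n ≤ 1 := pow_le_one₀ h0 h1
    have e : 1 - s ^ (n + 1) = s * (1 - s ^ n) + (1 - s) := by ring
    have h4 := mul_le_mul_of_nonneg_left ih h0
    have h5 : s ^ (n + 1) ≤ 1 := pow_le_one₀ h0 h1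
    have h6 : s ^ (n + 1) * (1 - s) ≤ 1 * (1 - s) := mul_le_mul_of_nonneg_right h5 (by linarith)
    push_cast
    rw [e]
    calc ((n : ℝ) + 1) * s ^ (n + 1) * (1 - s) = s * ((n : ℝ) * s ^ n * (1 - s)) +
          s ^ (n + 1) * (1 - s) := by ring
      _ ≤ _ := by linarith

end Pool.Agent.Q289.PK
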