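import Pool.Agent.TH996.ParkDefs

/-!
The free group on two generators with the kernel that multiplies on the right by a uniformly
chosen generator.
-/

set_option autoImplicit false

namespace Pool.Agent.Q289.PK

open FreeGroup Pool.Agent.TH996.Parking

/-- the free group on two generators -/
abbrev F2 : Type := FreeGroup Bool

/-- the element given by a positive word -/
def pw (w : List Bool) : F2 := FreeGroup.mk (w.map fun x => (x, true))

lemma pw_inj : Function.Injective pw := by
  intro w w' h
  have h1 : ∀ w : List Bool, (pw w).toWord = w.map fun x => (x, true) := by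
    intro w
    unfold pw
    rw [toWord_mk]
    apply FreeGroup.IsReduced.reduce_eq
    unfold FreeGroup.IsReduced
    rw [List.isChain_map]
    induction w with
    | nil => exact List.isChain_nil
    | cons a l ih =>
      cases l with
      | nil => exact List.isChain_singleton a
      | cons b l => exact List.isChain_cons_cons.2 ⟨fun _ => rfl, ih⟩
  have h2 := congrArg toWord h
  rw [h1, h1] at h2
  exact (List.map_injective_iff.2 fun a b hab => (Prod.mk.inj hab).1) h2

@[simp] lemma pw_nil : pw [] = 1 := rfl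

lemma pw_append (w w' : List Bool) : pw (w ++ w') = pw w * pw w' := by
  unfold pw
  rw [List.map_append, ← mul_mk]

lemma pw_single (g : Bool) : pw [g] = of g := rfl

lemma pw_concat (w : List Bool) (g : Bool) : pw (w ++ [g]) = pw w * of g := by
  rw [pw_append, pw_single]

/-- `v` is an ancestor of `y` -/
def Anc (v y : F2) : Prop := ∃ w : List Bool, y = v * pw w

lemma anc_refl (v : F2) : Anc v v := ⟨[], by simp⟩

lemma anc_of {v y : F2} {g : Bool} (h : Anc v (y * (of g)⁻¹)) : Anc v y := by
  obtain ⟨w, hw⟩ := h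
  exact ⟨w ++ [g], by rw [pw_concat, ← mul_assoc, ← hw]; simp⟩

lemma not_anc {y : F2} {g : Bool} : ¬ Anc y (y * (of g)⁻¹) := by
  rintro ⟨w, hw⟩
  have h1 : (of g)⁻¹ = pw w := mul_left_cancel hw
  have h2 : pw (w ++ [g]) = pw [] := by
    rw [pw_concat, ← h1]; simp
  have h3 := pw_inj h2
  simp at h3

lemma anc_disj {v y : F2} (h1 : Anc v (y * (of true)⁻¹)) (h2 : Anc v (y * (of false)⁻¹)) :
    False := by
  obtain ⟨w, hw⟩ := h1
  obtain ⟨w', hw'⟩ := h2
  have e1 : y = v * pw (w ++ [true]) := by
    rw [pw_concat, ← mul_assoc, ← hw]; simp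
  have e2 : y = v * pw (w' ++ [false]) := by
    rw [pw_concat, ← mul_assoc, ← hw']; simp
  have e3 := pw_inj (mul_left_cancel (e1.symm.trans e2))
  have e4 := congrArg List.getLast? e3
  simp at e4

lemma mul_of_of_ne (x : F2) (g h : Bool) : x * of g * of h ≠ x := by
  intro e
  rw [mul_assoc, mul_eq_left] at e
  have : pw [g, h] = pw [] := e
  simpa using pw_inj this

lemma of_ne_of_inv (x : F2) (g h : Bool) : x * of g ≠ x * (of h)⁻¹ := by
  intro e
  apply mul_of_of_ne x g h
  rw [e]; simp

/-- the Cayley graph -/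
def G2 : SimpleGraph F2 where
  Adj u v := ∃ g : Bool, v = u * of g ∨ u = v * of g
  symm := ⟨by
    rintro u v ⟨g, h⟩
    exact ⟨g, h.symm⟩⟩
  loopless := ⟨by
    rintro u ⟨g, h⟩
    have : u * of g = u := by rcases h with h | h <;> exact h.symm
    rw [mul_eq_left] at this
    exact of_ne_one g this⟩

lemma adj_iff (u v : F2) : G2.Adj u v ↔ ∃ g : Bool, v = u * of g ∨ v = u * (of g)⁻¹ := by
  constructor
  · rintro ⟨g, h | h⟩
    · exact ⟨g, Or.inl h⟩
    · exact ⟨g, Or.inr (by rw [h]; simp)⟩
  · rintro ⟨g, h | h⟩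
    · exact ⟨g, Or.inl h⟩
    · exact ⟨g, Or.inr (by rw [h]; simp)⟩

lemma nbr_finite (v : F2) : (G2.neighborSet v).Finite := by
  have : G2.neighborSet v ⊆ (Set.range fun g : Bool => v * of g) ∪
      Set.range fun g : Bool => v * (of g)⁻¹ := by
    intro w hw
    rw [SimpleGraph.mem_neighborSet, adj_iff] at hw
    obtain ⟨g, h | h⟩ := hw
    · exact Or.inl ⟨g, h.symm⟩
    · exact Or.inr ⟨g, h.symm⟩
  exact ((Set.finite_range _).union (Set.finite_range _)).subset this

noncomputable instance : G2.LocallyFinite := fun v => (nbr_finite v).fintype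

/-- the kernel -/
noncomputable def K2 (u v : F2) : ℝ := if v = u * of true ∨ v = u * of false then 1 / 2 else 0

lemma of_tf (u : F2) : u * of true ≠ u * of false := by
  intro h
  have := of_injective (mul_left_cancel h)
  simp at this

lemma of_tf_inv (u : F2) : u * (of true)⁻¹ ≠ u * (of false)⁻¹ := by
  intro h
  have := of_injective (inv_injective (mul_left_cancel h))
  simp at this

lemma connected2 : G2.Connected := by
  have h1 : ∀ v : F2, G2.Reachable 1 v := by
    intro v
    have key : ∀ v u : F2, G2.Reachable u (u * v) := by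
      intro v
      induction v using FreeGroup.induction_on with
      | C1 => intro u; simp
      | of g =>
        intro u
        exact SimpleGraph.Adj.reachable ((adj_iff _ _).2 ⟨g, Or.inl rfl⟩)
      | inv_of g _ =>
        intro u
        exact SimpleGraph.Adj.reachable ((adj_iff _ _).2 ⟨g, Or.inr rfl⟩)
      | mul x y hx hy =>
        intro u
        have := (hx u).trans (hy (u * x))
        rwa [mul_assoc] at this
    simpa using key v 1
  have : Nonempty F2 := ⟨1⟩
  exact ⟨fun u v => (h1 u).symm.trans (h1 v)⟩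

lemma kernel2 : IsKernel G2 K2 where
  nonneg u v := by unfold K2; split_ifs <;> norm_num
  supp u v h := by
    unfold K2
    rw [if_neg]
    rintro (h1 | h1)
    · exact h ((adj_iff _ _).2 ⟨true, Or.inl h1⟩)
    · exact h ((adj_iff _ _).2 ⟨false, Or.inl h1⟩)
  sum_one u := by
    classical
    have hsub : ({u * of true, u * of false} : Finset F2) ⊆ G2.neighborFinset u := by
      intro v hv
      rw [SimpleGraph.mem_neighborFinset, adj_iff]
      rw [Finset.mem_insert, Finset.mem_singleton] at hv
      rcases hv with h | h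
      · exact ⟨true, Or.inl h⟩
      · exact ⟨false, Or.inl h⟩
    rw [← Finset.sum_subset hsub]
    · rw [Finset.sum_pair (of_tf u)]
      unfold K2
      simp
      norm_num
    · intro v _ hv
      unfold K2
      rw [if_neg]
      rwa [Finset.mem_insert, Finset.mem_singleton] at hv

/-- the group of left multiplications -/
def Gam : Subgroup (Equiv.Perm F2) := (MulAction.toPermHom F2 F2).range

lemma mem_gam {φ : Equiv.Perm F2} (h : φ ∈ Gam) : ∃ a : F2, ∀ x, φ x = a * x := by
  obtain ⟨a, rfl⟩ := h
  exact ⟨a, fun x => rfl⟩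

lemma left_mem (a : F2) : MulAction.toPermHom F2 F2 a ∈ Gam := ⟨a, rfl⟩

lemma aut2 : IsAut G2 K2 Gam where
  adj φ hφ u v := by
    obtain ⟨a, ha⟩ := mem_gam hφ
    rw [ha, ha, adj_iff, adj_iff]
    simp only [mul_assoc, mul_right_inj]
  ker φ hφ u v := by
    obtain ⟨a, ha⟩ := mem_gam hφ
    rw [ha, ha]
    unfold K2
    simp only [mul_assoc, mul_right_inj]

lemma trans2 : IsTransitive Gam := by
  intro u v
  refine ⟨_, left_mem (v * u⁻¹), ?_⟩
  show (v * u⁻¹) * u = v
  simp

lemma stab2 (u v : F2) : stabOrbit Gam u v = {v} := by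
  ext w
  constructor
  · rintro ⟨φ, hφ, h1, h2⟩
    obtain ⟨a, ha⟩ := mem_gam hφ
    rw [ha] at h1 h2
    have : a = 1 := by
      rw [mul_eq_right] at h1
      exact h1
    rw [this, one_mul] at h2
    exact h2.symm
  · intro h
    rw [Set.mem_singleton_iff] at h
    exact ⟨1, Gam.one_mem, rfl, h.symm⟩

lemma unimod2 : IsUnimodular Gam := by
  intro u v
  rw [stab2, stab2]
  simp

lemma infacc2 : IsInfinitelyAccessible G2 K2 Gam := by
  refine ⟨_, left_mem (of true)⁻¹, 1, ?_, ?_⟩
  · have h1 : ∀ n : ℕ, ((MulAction.toPermHom F2 F2 (of true)⁻¹) ^ n) 1 = ((of true)⁻¹ : F2) ^ n := by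
      intro n
      rw [← map_pow]
      show ((of true)⁻¹ : F2) ^ n * 1 = _
      rw [mul_one]
    simp_rw [h1]
    apply Set.infinite_range_of_injective
    intro m n h
    simp only [inv_pow, inv_inj] at h
    have h2 := congrArg FreeGroup.norm h
    rwa [norm_of_pow, norm_of_pow] at h2
  · show Accessible G2 K2 ((of true)⁻¹ * 1) 1
    apply Relation.ReflTransGen.single
    refine ⟨(adj_iff _ _).2 ⟨true, Or.inl (by simp)⟩, ?_⟩
    unfold K2
    rw [if_pos (Or.inl (by simp))]
    norm_num

end Pool.Agent.Q289.PK
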