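import Mathlib

/-!
Functions of disjoint sets of coordinates of a product measure.
-/

set_option autoImplicit false

namespace Pool.Agent.Q289.PK

open MeasureTheory Measure ProbabilityTheory

section

variable {ι : Type*} (μ : ι → Measure Bool) [∀ i, IsProbabilityMeasure (μ i)]

/-- the sigma-algebra of a set of coordinates -/
def sig (S : Set ι) : MeasurableSpace (ι → Bool) :=
  ⨆ i ∈ S, MeasurableSpace.comap (fun ω : ι → Bool => ω i) ⊤

lemma measurable_sig {S : Set ι} {f : (ι → Bool) → ℝ} (hf : Measurable f) (hS : DependsOn f S) :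
    Measurable[sig S] f := by
  classical
  let e : (ι → Bool) → (ι → Bool) := fun ω i => if i ∈ S then ω i else false
  have he : @Measurable _ _ (sig S) MeasurableSpace.pi e := by
    refine @measurable_pi_lambda _ _ _ (sig S) _ _ fun i => ?_
    by_cases hi : i ∈ S
    · have : (fun ω : ι → Bool => e ω i) = fun ω => ω i := by
        funext ω; simp [e, hi]
      rw [this]
      have h1 : MeasurableSpace.comap (fun ω : ι → Bool => ω i) ⊤ ≤ sig S :=
        le_iSup₂_of_le i hi le_rfl
      exact (comap_measurable _).mono h1 le_rfl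
    · have : (fun ω : ι → Bool => e ω i) = fun _ => false := by
        funext ω; simp [e, hi]
      rw [this]
      exact @measurable_const _ _ _ (sig S) _
  have h2 : f = f ∘ e := by
    funext ω
    refine hS fun i hi => ?_
    simp [e, hi]
  rw [h2]
  exact hf.comp he

lemma indep_dep {S T : Set ι} (hd : Disjoint S T) {f g : (ι → Bool) → ℝ} (hf : Measurable f)
    (hg : Measurable g) (hS : DependsOn f S) (hT : DependsOn g T) :
    IndepFun f g (infinitePi μ) := by
  have h1 : iIndepFun (fun (i : ι) (ω : ι → Bool) => ω i) (infinitePi μ) :=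
    iIndepFun_infinitePi (X := fun _ ω => ω) (fun _ => measurable_id)
  have h2 : Indep (sig S) (sig T) (infinitePi μ) := by
    refine indep_iSup_of_disjoint (fun i => ?_) h1 hd
    exact (measurable_pi_apply i).comap_le
  rw [IndepFun_iff_Indep]
  exact indep_of_indep_of_le_right
    (indep_of_indep_of_le_left h2 (measurable_sig hf hS).comap_le) (measurable_sig hg hT).comap_le

lemma integral_dep {S T : Set ι} (hd : Disjoint S T) {f g : (ι → Bool) → ℝ} (hf : Measurable f)
    (hg : Measurable g) (hS : DependsOn f S) (hT : DependsOn g T) :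
    ∫ ω, f ω * g ω ∂(infinitePi μ) = (∫ ω, f ω ∂(infinitePi μ)) * ∫ ω, g ω ∂(infinitePi μ) :=
  (indep_dep μ hd hf hg hS hT).integral_fun_mul_eq_mul_integral hf.aestronglyMeasurable
    hg.aestronglyMeasurable

lemma integral_coord (i : ι) (h : Bool → ℝ) :
    ∫ ω, h (ω i) ∂(infinitePi μ) = ∫ b, h b ∂(μ i) := by
  have h1 := infinitePi_map_eval μ i
  have h2 := integral_map (μ := infinitePi μ) (measurable_pi_apply i).aemeasurable
    (f := h) (measurable_of_countable h).aestronglyMeasurable
  rw [h1] at h2
  exact h2.symm

lemma integral_prod_coord (A : Finset ι) (h : ι → Bool → ℝ) :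
    ∫ ω, ∏ i ∈ A, h i (ω i) ∂(infinitePi μ) = ∏ i ∈ A, ∫ b, h i b ∂(μ i) := by
  classical
  induction A using Finset.induction_on with
  | empty => simp
  | insert a A ha ih =>
    simp_rw [Finset.prod_insert ha]
    have hm : ∀ i, Measurable fun ω : ι → Bool => h i (ω i) := fun i =>
      (measurable_of_countable (h i)).comp (measurable_pi_apply i)
    rw [integral_dep μ (S := {a}) (T := (A : Set ι)), ih, integral_coord]
    · rw [Set.disjoint_singleton_left]; exact ha
    · exact hm a
    · exact Finset.measurable_fun_prod _ fun i _ => hm i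
    · intro ω ω' h1
      show h a (ω a) = h a (ω' a)
      rw [h1 a rfl]
    · intro ω ω' h1
      refine Finset.prod_congr rfl fun i hi => ?_
      rw [h1 i hi]

end

end Pool.Agent.Q289.PK
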