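import Pool.Agent.Q289.PK.Thin

/-!
The mean number of visits on the free group grows at most like a logarithm.
-/

set_option autoImplicit false

namespace Pool.Agent.Q289.PK

open FreeGroup MeasureTheory Measure Finset Filter Topology
open Pool.Agent.TH996.Park Pool.Agent.TH996.Parking
open scoped ENNReal

section

variable {p : ℝ} (hp : 0 ≤ p ∧ p ≤ 1)

include hp in
lemma PP_prob : IsProbabilityMeasure (PP p) := by
  have i3 := par_prob hp
  unfold PP; infer_instance

include hp in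
lemma inv_y (T : ℕ) : ∀ y y' : F2,
    (∀ s : ℝ, 0 < s → s ≤ 1 → Gg p T y s = Gg p T y' s) ∧
    (∀ s : ℝ, 0 ≤ s → s ≤ 1 → Fg p T y s = Fg p T y' s) := by
  have hF : ∀ T, (∀ y y' : F2, ∀ s : ℝ, 0 < s → s ≤ 1 → Gg p T y s = Gg p T y' s) →
      ∀ y y' : F2, ∀ s : ℝ, 0 ≤ s → s ≤ 1 → Fg p T y s = Fg p T y' s := by
    intro T hG y y' s h0 h1
    rw [Fg_eq hp T y h0 h1, Fg_eq hp T y' h0 h1,
      hG (y * (of true)⁻¹) (y' * (of true)⁻¹) _ (by linarith) (by linarith),
      hG (y * (of false)⁻¹) (y' * (of false)⁻¹) _ (by linarith) (by linarith)]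
  have hG : ∀ T, ∀ y y' : F2, ∀ s : ℝ, 0 < s → s ≤ 1 → Gg p T y s = Gg p T y' s := by
    intro T
    induction T with
    | zero =>
      intro y y' s _ _
      unfold Gg dd
      simp
    | succ T ih =>
      intro y y' s h0 h1
      rw [Gg_succ hp T y h0 h1, Gg_succ hp T y' h0 h1, hF T ih y y' s h0.le h1,
        hF T ih y y' 0 le_rfl zero_le_one]
  exact fun y y' => ⟨hG T y y', hF T (hG T) y y'⟩

include hp in
lemma transfer {F : Om F2 → ℝ} (hF : BM F) :
    ∫ ω, F ω ∂(SS.law p 0) = ∫ ω, F (emb (Phi ω)) ∂(PP p) := by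
  rw [law_emb SS hp hF, ← law_Phi hp, integral_map measurable_Phi.aemeasurable]
  exact (hF.meas.comp measurable_emb).aestronglyMeasurable

include hp in
lemma Fg_zero (T : ℕ) (y : F2) : 1 - 2 * p ≤ (1 - p) * Fg p T y 0 := by
  have hb := balance SS hp (κ := 0) ⟨le_rfl, zero_le_one⟩ y T
  have ha := aT_nonneg SS (p := p) (κ := 0) y T
  have hf : fT SS p 0 y T = (1 - p) * Fg p T y 0 := by
    unfold fT
    rw [transfer hp (bm_F SS.nb T y)]
    have e : ∀ ω, (Fn SS.nb T y (emb (Phi ω)) : ℝ) =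
        (if ω (.inl y) then (0:ℝ) else 1) * 0 ^ vv T y ω := by
      intro ω
      have e0 : Fn SS.nb T y (emb (Phi ω)) = ff T y ω := rfl
      rw [e0]
      obtain ⟨i1, i2⟩ := dd_rec T y ω
      by_cases h : ω (.inl y) = true
      · rw [(i1 h).1, if_pos h]; simp
      · have h' : ω (.inl y) = false := by simpa using h
        rw [(i2 h').1, if_neg h]
        rcases Nat.eq_zero_or_pos (vv T y ω) with h2 | h2
        · rw [h2]; simp
        · rw [Nat.sub_eq_zero_of_le h2, zero_pow h2.ne']; simp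
    simp_rw [e]
    rw [indep_eta hp T y (fun b => if b then (0:ℝ) else 1) (fun n => 0 ^ n)]
    simp only [if_true, Bool.false_eq_true, if_false]
    unfold Fg
    ring
  rw [hf] at hb
  linarith

include hp in
lemma rec_main : Rec p (fun T s => Fg p T 1 s) (fun T s => Gg p T 1 s) where
  G_nonneg T s h0 _ := integral_nonneg fun ω => pow_nonneg h0 _
  G_le T s h0 h1 := by
    have := PP_prob hp
    have h : ∫ ω, s ^ dd T 1 ω ∂(PP p) ≤ ∫ _ω, (1:ℝ) ∂(PP p) :=
      integral_mono (int_pow hp (measurable_dd T 1) h0 h1) (integrable_const _)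
        fun ω => pow_le_one₀ h0 h1
    simpa [Gg] using h
  F_mono T s h0 h1 := by
    refine integral_mono (int_pow hp (measurable_vv T 1) le_rfl zero_le_one)
      (int_pow hp (measurable_vv T 1) h0 h1) fun ω => ?_
    exact pow_le_pow_left₀ le_rfl h0 _
  F_eq T s h0 h1 := by
    show Fg p T 1 s = Gg p T 1 ((1 + s) / 2) ^ 2
    rw [Fg_eq hp T 1 h0 h1, (inv_y hp T (1 * (of true)⁻¹) 1).1 _ (by linarith) (by linarith),
      (inv_y hp T (1 * (of false)⁻¹) 1).1 _ (by linarith) (by linarith), sq]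
  G_succ T s h0 h1 := Gg_succ hp T 1 h0 h1
  F_zero T := Fg_zero hp T 1

/-- a bound for the number of departures -/
noncomputable def Mb (T : ℕ) (x : F2) : ℕ := ∑ t ∈ range T, bd SS.nb t x

lemma dd_le (T : ℕ) (x : F2) (ω : JJ → Bool) : dd T x ω ≤ Mb T x :=
  sum_le_sum fun t _ => cs_le_bd SS.nb _ _ _ _ (c0_le _) t x

include hp in
lemma int_dd (T : ℕ) (x : F2) : Integrable (fun ω => (dd T x ω : ℝ)) (PP p) := by
  have := PP_prob hp
  refine Integrable.of_bound ((measurable_of_countable fun n : ℕ => (n : ℝ)).comp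
    (measurable_dd T x)).aestronglyMeasurable (Mb T x : ℝ) (ae_of_all _ fun ω => ?_)
  rw [Real.norm_eq_abs, abs_of_nonneg (Nat.cast_nonneg _)]
  exact_mod_cast dd_le T x ω

include hp in
lemma mean_dd_le (hp1 : p < 1 / 2) (T : ℕ) (x : F2) :
    ∫ ω, (dd T x ω : ℝ) ∂(PP p) ≤ 1 + Real.log (1 / (1 - 2 * p)) := by
  have hP := PP_prob hp
  obtain ⟨I, hI⟩ : ∃ I, I = ∫ ω, (dd T x ω : ℝ) ∂(PP p) := ⟨_, rfl⟩
  rw [← hI]
  have key : ∀ k : ℕ, I * sk (k + 1) ^ Mb T x ≤ 1 + Real.log (1 / (1 - 2 * p)) := by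
    intro k
    obtain ⟨s, hs⟩ : ∃ s, s = sk (k + 1) := ⟨_, rfl⟩
    have hs1 : s ≤ 1 := by rw [hs]; exact sk_le _
    have hs2 : 1 / 2 ≤ s := by rw [hs]; exact sk_half _
    have hs0 : 0 ≤ s := by linarith
    have h1 := G_quot (rec_main hp) hp.1 hp1 T k
    rw [← hs] at h1 ⊢
    rw [(inv_y hp T 1 x).1 s (by linarith) hs1] at h1
    refine le_trans ?_ h1
    have h2 : I * s ^ Mb T x * (1 - s) ≤ 1 - Gg p T x s := by
      have e1 : I * s ^ Mb T x * (1 - s) =
          ∫ ω, (dd T x ω : ℝ) * (s ^ Mb T x * (1 - s)) ∂(PP p) := by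
        rw [integral_mul_const, hI]; ring
      have e2 : 1 - Gg p T x s = ∫ ω, (1 - s ^ dd T x ω) ∂(PP p) := by
        rw [integral_sub (integrable_const _) (int_pow hp (measurable_dd T x) hs0 hs1)]
        unfold Gg
        simp
      rw [e1, e2]
      refine integral_mono ((int_dd hp T x).mul_const _)
        ((integrable_const _).sub (int_pow hp (measurable_dd T x) hs0 hs1)) fun ω => ?_
      show (dd T x ω : ℝ) * (s ^ Mb T x * (1 - s)) ≤ 1 - s ^ dd T x ω
      refine le_trans ?_ (one_sub_pow_ge hs0 hs1 (dd T x ω))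
      have h3 : s ^ Mb T x ≤ s ^ dd T x ω := pow_le_pow_of_le_one hs0 hs1 (dd_le T x ω)
      have h4 : (0:ℝ) ≤ dd T x ω := Nat.cast_nonneg _
      rw [← mul_assoc]
      exact mul_le_mul_of_nonneg_right (mul_le_mul_of_nonneg_left h3 h4) (by linarith)
    have h5 : (1 - s) * 2 ^ (k + 1) = 1 := by
      rw [hs]; unfold sk
      rw [show 1 - (1 - (1 / 2 : ℝ) ^ (k + 1)) = (1 / 2) ^ (k + 1) by ring, ← mul_pow]
      norm_num
    have h6 : (0:ℝ) ≤ 2 ^ (k + 1) := by positivity
    calc I * s ^ Mb T x = (I * s ^ Mb T x * (1 - s)) * 2 ^ (k + 1) := by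
          rw [mul_assoc (I * s ^ Mb T x), h5, mul_one]
      _ ≤ (1 - Gg p T x s) * 2 ^ (k + 1) := mul_le_mul_of_nonneg_right h2 h6
      _ = _ := by ring
  have hlim : Tendsto (fun k : ℕ => I * sk (k + 1) ^ Mb T x) atTop (𝓝 (I * 1 ^ Mb T x)) := by
    have h1 : Tendsto (fun k : ℕ => sk (k + 1)) atTop (𝓝 1) := by
      have h2 : Tendsto (fun k : ℕ => ((1:ℝ) / 2) ^ k) atTop (𝓝 0) :=
        tendsto_pow_atTop_nhds_zero_of_lt_one (by norm_num) (by norm_num)
      have h3 := (h2.comp (tendsto_add_atTop_nat 1)).const_sub 1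
      rw [sub_zero] at h3
      exact h3
    exact (h1.pow _).const_mul _
  have := le_of_tendsto' hlim key
  simpa using this

include hp in
/-- **The mean number of visits is at most logarithmic.** -/
theorem visits_le (hp1 : p < 1 / 2) (x : F2) :
    expectedVisits G2 K2 p x ≤ ENNReal.ofReal (1 + Real.log (1 / (1 - 2 * p))) := by
  have hP := PP_prob hp
  refine expectedVisits_le G2 K2 Gam kernel2 aut2 trans2 unimod2 hp x _ fun T => ?_
  refine le_trans (le_of_eq ?_) (mean_dd_le hp hp1 T x)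
  have e : ∀ ω, (dd T x ω : ℝ) = ∑ t ∈ range T, (cc t x ω : ℝ) := by
    intro ω; unfold dd; push_cast; rfl
  simp_rw [e]
  rw [integral_finsetSum]
  · refine sum_congr rfl fun t _ => ?_
    unfold aT
    rw [transfer hp (bm_C SS.nb t x)]
    rfl
  · intro t _
    refine Integrable.of_bound ((measurable_of_countable fun n : ℕ => (n : ℝ)).comp
      (measurable_cc t x)).aestronglyMeasurable (bd SS.nb t x : ℝ) (ae_of_all _ fun ω => ?_)
    rw [Real.norm_eq_abs, abs_of_nonneg (Nat.cast_nonneg _)]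
    exact_mod_cast cs_le_bd SS.nb _ _ _ _ (c0_le _) t x

end

/-- no power of the distance to the critical point compensates the mean number of visits -/
theorem tendsto_zero (x : F2) (γ : ℝ) (hγ : 0 < γ) :
    Tendsto (fun p : ℝ => (expectedVisits G2 K2 p x).toReal * (1 / 2 - p) ^ γ) (𝓝[<] (1 / 2))
      (𝓝 0) := by
  have hev : ∀ᶠ p : ℝ in 𝓝[<] (1 / 2), 0 < p ∧ p < 1 / 2 := by
    have h1 : ∀ᶠ p : ℝ in 𝓝[<] (1 / 2), 0 < p :=
      mem_nhdsWithin_of_mem_nhds (lt_mem_nhds (by norm_num))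
    exact h1.and self_mem_nhdsWithin
  -- the variable `u = 1 / 2 - p`
  have hu : Tendsto (fun p : ℝ => 1 / 2 - p) (𝓝[<] (1 / 2)) (𝓝[>] 0) := by
    rw [tendsto_nhdsWithin_iff]
    constructor
    · have : Tendsto (fun p : ℝ => 1 / 2 - p) (𝓝 (1 / 2)) (𝓝 (1 / 2 - 1 / 2)) :=
        (continuous_const.sub continuous_id).tendsto _
      rw [sub_self] at this
      exact this.mono_left nhdsWithin_le_nhds
    · filter_upwards [self_mem_nhdsWithin] with p hp
      rw [Set.mem_Ioi]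
      rw [Set.mem_Iio] at hp
      linarith
  have h1 : Tendsto (fun u : ℝ => (1 - Real.log 2) * u ^ γ - Real.log u * u ^ γ) (𝓝[>] 0)
      (𝓝 ((1 - Real.log 2) * 0 - 0)) := by
    have h2 : Tendsto (fun u : ℝ => Real.log u * u ^ γ) (𝓝[>] 0) (𝓝 0) :=
      tendsto_log_mul_rpow_nhdsGT_zero hγ
    have h3 : Tendsto (fun u : ℝ => u ^ γ) (𝓝[>] 0) (𝓝 0) := by
      have := (Real.continuousAt_rpow_const 0 γ (Or.inr hγ.le)).tendsto
      rw [Real.zero_rpow hγ.ne'] at this
      exact this.mono_left nhdsWithin_le_nhds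
    exact (h3.const_mul _).sub h2
  rw [mul_zero, sub_zero] at h1
  have h4 := h1.comp hu
  refine squeeze_zero' ?_ ?_ h4
  · filter_upwards [hev] with p hp
    exact mul_nonneg ENNReal.toReal_nonneg (Real.rpow_nonneg (by linarith [hp.2]) _)
  · filter_upwards [hev] with p hp
    have h5 := visits_le (p := p) ⟨hp.1.le, by linarith [hp.2]⟩ hp.2 x
    have h6 : 0 < 1 - 2 * p := by linarith [hp.2]
    have h7 : 0 ≤ 1 + Real.log (1 / (1 - 2 * p)) := by
      have : 0 ≤ Real.log (1 / (1 - 2 * p)) := by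
        apply Real.log_nonneg
        rw [le_div_iff₀ h6]; linarith [hp.1]
      linarith
    have h8 : (expectedVisits G2 K2 p x).toReal ≤ 1 + Real.log (1 / (1 - 2 * p)) :=
      ENNReal.toReal_le_of_le_ofReal h7 h5
    have h9 : 0 ≤ (1 / 2 - p) ^ γ := Real.rpow_nonneg (by linarith [hp.2]) _
    refine (mul_le_mul_of_nonneg_right h8 h9).trans (le_of_eq ?_)
    simp only [Function.comp]
    have e : Real.log (1 / (1 - 2 * p)) = -Real.log 2 - Real.log (1 / 2 - p) := by
      rw [one_div, Real.log_inv, show 1 - 2 * p = 2 * (1 / 2 - p) by ring,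
        Real.log_mul (by norm_num) (by linarith [hp.2])]
      ring
    rw [e]; ring

end Pool.Agent.Q289.PK
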