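import Pool.Agent.TH996.Link
import Pool.Agent.Q289.PK.Group
import Pool.Agent.Q289.PK.Ind

/-!
The parking process on the free group as a function of independent bits.
-/

set_option autoImplicit false

namespace Pool.Agent.Q289.PK

open FreeGroup MeasureTheory Measure Finset
open Pool.Agent.TH996.Park Pool.Agent.TH996.Parking
open scoped ENNReal

instance : MeasurableSpace F2 := ⊤
instance : DiscreteMeasurableSpace F2 := ⟨fun _ => trivial⟩

/-- the triple -/
noncomputable abbrev SS : Tri F2 := mkTri G2 K2 Gam kernel2 aut2 trans2 unimod2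

/-- the index set of the bits -/
abbrev JJ : Type := F2 ⊕ (ℕ × F2 × ℕ)

/-- the parameters of the bits -/
noncomputable def par (p : ℝ) : JJ → ℝ
  | .inl _ => p
  | .inr _ => 1 / 2

/-- the law of the bits -/
noncomputable def PP (p : ℝ) : Measure (JJ → Bool) := infinitePi fun j => bern (par p j)

lemma par_prob {p : ℝ} (hp : 0 ≤ p ∧ p ≤ 1) (j : JJ) : IsProbabilityMeasure (bern (par p j)) := by
  rcases j with v | a
  · exact bern_prob hp.1 hp.2
  · exact bern_prob (p := 1 / 2) (by norm_num) (by norm_num)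

/-- from the bits to the randomness of the process -/
def Phi (ω : JJ → Bool) : (F2 → Bool) × (ℕ × F2 × ℕ → F2) :=
  (fun v => ω (.inl v), fun a => a.2.1 * of (ω (.inr a)))

lemma measurable_Phi : Measurable Phi := by
  refine (measurable_pi_lambda _ fun v => measurable_pi_apply _).prodMk
    (measurable_pi_lambda _ fun a => ?_)
  exact (measurable_of_countable fun b : Bool => a.2.1 * of b).comp (measurable_pi_apply _)

lemma pair_sub (u : F2) : ({u * of true, u * of false} : Finset F2) ⊆ SS.nb u := by
  intro v hv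
  show v ∈ G2.neighborFinset u
  rw [SimpleGraph.mem_neighborFinset, adj_iff]
  rw [Finset.mem_insert, Finset.mem_singleton] at hv
  rcases hv with h | h
  · exact ⟨true, Or.inl h⟩
  · exact ⟨false, Or.inl h⟩

lemma map_bern (y : F2) :
    (bern (1 / 2)).map (fun b => y * of b) = stepLaw SS.nb SS.K y := by
  ext A hA
  rw [map_apply (measurable_of_countable _) hA]
  unfold stepLaw bern
  rw [Measure.finsetSum_apply, ← Finset.sum_subset (pair_sub y), Finset.sum_pair (of_tf y)]
  · have e1 : SS.K y (y * of true) = 1 / 2 := by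
      show K2 y (y * of true) = 1 / 2
      unfold K2; simp
    have e2 : SS.K y (y * of false) = 1 / 2 := by
      show K2 y (y * of false) = 1 / 2
      unfold K2; simp
    rw [e1, e2]
    simp only [Measure.add_apply, Measure.smul_apply, smul_eq_mul, dirac_apply' _ hA,
      dirac_apply' _ (MeasurableSet.of_discrete : MeasurableSet ((fun b => y * of b) ⁻¹' A))]
    rw [show (1 - 1 / 2 : ℝ) = 1 / 2 by norm_num]
    rfl
  · intro v _ hv
    have e : SS.K y v = 0 := by
      show K2 y v = 0
      unfold K2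
      rw [if_neg]
      rwa [Finset.mem_insert, Finset.mem_singleton] at hv
    rw [e]; simp

lemma law_Phi {p : ℝ} (hp : 0 ≤ p ∧ p ≤ 1) : (PP p).map Phi = SS.law0 p := by
  have i1 := bern_prob hp.1 hp.2
  have i2 : IsProbabilityMeasure (bern (1 / 2)) := bern_prob (by norm_num) (by norm_num)
  have i3 := par_prob hp
  have hm : ∀ a : ℕ × F2 × ℕ, Measurable fun b : Bool => a.2.1 * of b :=
    fun a => measurable_of_countable _
  -- the two parts
  have h1 : ((infinitePi fun _ : F2 => bern p).prod
      (infinitePi fun _ : ℕ × F2 × ℕ => bern (1 / 2))).map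
      (fun q : (F2 → Bool) × (ℕ × F2 × ℕ → Bool) => (Sum.elim q.1 q.2 : JJ → Bool)) = PP p := by
    unfold PP
    refine eq_infinitePi _ fun s t ht => ?_
    have hme : Measurable (fun q : (F2 → Bool) × (ℕ × F2 × ℕ → Bool) =>
        (Sum.elim q.1 q.2 : JJ → Bool)) := by
      refine measurable_pi_lambda _ fun j => ?_
      rcases j with v | a
      · exact (measurable_pi_apply v).comp measurable_fst
      · exact (measurable_pi_apply a).comp measurable_snd
    rw [map_apply hme (.pi s.countable_toSet fun _ _ => ht _)]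
    have e : (fun q : (F2 → Bool) × (ℕ × F2 × ℕ → Bool) => (Sum.elim q.1 q.2 : JJ → Bool)) ⁻¹'
        ((s : Set JJ).pi t) = ((s.toLeft : Set F2).pi fun v => t (.inl v)) ×ˢ
          ((s.toRight : Set (ℕ × F2 × ℕ)).pi fun a => t (.inr a)) := by
      ext q
      simp only [Set.mem_preimage, Set.mem_pi, Finset.mem_coe, Set.mem_prod, Finset.mem_toLeft,
        Finset.mem_toRight]
      constructor
      · intro h
        exact ⟨fun v hv => h _ hv, fun a ha => h _ ha⟩
      · rintro ⟨h1, h2⟩ (v | a) hj
        · exact h1 v hj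
        · exact h2 a hj
    rw [e, prod_prod, infinitePi_pi _ (fun v _ => ht _), infinitePi_pi _ (fun a _ => ht _)]
    have e2 : s = s.toLeft.disjSum s.toRight := (Finset.toLeft_disjSum_toRight).symm
    conv_rhs => rw [e2, Finset.prod_disjSum]
    rfl
  have h2 : (infinitePi fun _ : ℕ × F2 × ℕ => bern (1 / 2)).map
      (fun (x : ℕ × F2 × ℕ → Bool) a => a.2.1 * of (x a)) =
      infinitePi fun a : ℕ × F2 × ℕ => stepLaw SS.nb SS.K a.2.1 := by
    have h3 := infinitePi_map_pi (fun _ : ℕ × F2 × ℕ => bern (1 / 2)) hm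
    refine h3.trans ?_
    congr 1
    funext a
    exact map_bern a.2.1
  unfold Tri.law0
  rw [← h2, ← h1]
  have hme : Measurable (fun q : (F2 → Bool) × (ℕ × F2 × ℕ → Bool) =>
      (Sum.elim q.1 q.2 : JJ → Bool)) := by
    refine measurable_pi_lambda _ fun j => ?_
    rcases j with v | a
    · exact (measurable_pi_apply v).comp measurable_fst
    · exact (measurable_pi_apply a).comp measurable_snd
  rw [map_map measurable_Phi hme]
  have hg : Measurable (fun (x : ℕ × F2 × ℕ → Bool) (a : ℕ × F2 × ℕ) => a.2.1 * of (x a)) :=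
    measurable_pi_lambda _ fun a => (hm a).comp (measurable_pi_apply a)
  have h5 := map_prod_map (infinitePi fun _ : F2 => bern p)
    (infinitePi fun _ : ℕ × F2 × ℕ => bern (1 / 2)) measurable_id hg
  rw [Measure.map_id] at h5
  rw [h5]
  rfl

/-- unparked cars -/
noncomputable def cc (t : ℕ) (y : F2) (ω : JJ → Bool) : ℕ := Cn SS.nb t y (emb (Phi ω))
/-- free spots -/
noncomputable def ff (t : ℕ) (y : F2) (ω : JJ → Bool) : ℕ := Fn SS.nb t y (emb (Phi ω))
/-- arrivals -/
noncomputable def aa (t : ℕ) (y : F2) (ω : JJ → Bool) : ℕ := An SS.nb t y (emb (Phi ω))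
/-- the cars that leave `z` at time `t` in the direction `g` -/
noncomputable def nn (t : ℕ) (z : F2) (g : Bool) (ω : JJ → Bool) : ℕ :=
  ((range (cc t z ω)).filter fun i => ω (.inr (t, z, i)) = g).card

lemma cc_zero (y : F2) (ω : JJ → Bool) : cc 0 y ω = if ω (.inl y) then 1 else 0 := rfl
lemma ff_zero (y : F2) (ω : JJ → Bool) : ff 0 y ω = if ω (.inl y) then 0 else 1 := rfl
lemma cc_succ (t : ℕ) (y : F2) (ω : JJ → Bool) : cc (t + 1) y ω = aa t y ω - ff t y ω := rfl
lemma ff_succ (t : ℕ) (y : F2) (ω : JJ → Bool) : ff (t + 1) y ω = ff t y ω - aa t y ω := rfl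

lemma aa_eq (t : ℕ) (x : F2) (ω : JJ → Bool) : aa t x ω =
    nn t (x * (of true)⁻¹) true ω + nn t (x * (of false)⁻¹) false ω := by
  have h0 : aa t x ω = ∑ y ∈ G2.neighborFinset x, ((range (cc t y ω)).filter
      fun i => (fun _ : ℕ × F2 × ℕ => false) (t, y, i) = false ∧
        y * of (ω (.inr (t, y, i))) = x).card := rfl
  rw [h0]
  have hsub : ({x * (of true)⁻¹, x * (of false)⁻¹} : Finset F2) ⊆ G2.neighborFinset x := by
    intro v hv
    rw [SimpleGraph.mem_neighborFinset, adj_iff]
    rw [Finset.mem_insert, Finset.mem_singleton] at hv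
    rcases hv with h | h
    · exact ⟨true, Or.inr h⟩
    · exact ⟨false, Or.inr h⟩
  have key : ∀ g : Bool, ((range (cc t (x * (of g)⁻¹) ω)).filter
      fun i => (fun _ : ℕ × F2 × ℕ => false) (t, x * (of g)⁻¹, i) = false ∧
        x * (of g)⁻¹ * of (ω (.inr (t, x * (of g)⁻¹, i))) = x).card =
      nn t (x * (of g)⁻¹) g ω := by
    intro g
    unfold nn
    congr 1
    refine filter_congr fun i _ => ?_
    constructor
    · rintro ⟨-, h⟩
      rw [mul_assoc, mul_eq_left, inv_mul_eq_one] at h
      exact (of_injective h).symm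
    · intro h
      refine ⟨rfl, ?_⟩
      rw [h]; simp
  rw [← Finset.sum_subset hsub, Finset.sum_pair (of_tf_inv x), key, key]
  intro y hy hy2
  rw [SimpleGraph.mem_neighborFinset, adj_iff] at hy
  obtain ⟨g, h | h⟩ := hy
  · rw [Finset.card_eq_zero, Finset.filter_eq_empty_iff]
    rintro i - ⟨-, h3⟩
    rw [h] at h3
    exact mul_of_of_ne x g _ h3
  · exfalso
    apply hy2
    rw [Finset.mem_insert, Finset.mem_singleton]
    cases g
    · exact Or.inr h
    · exact Or.inl h

end Pool.Agent.Q289.PK
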