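import Pool.Agent.Q289.PK.Dep
import Pool.Agent.Q289.PK.Gen

/-!
The generating functions of the visits and of the departures.
-/

set_option autoImplicit false

namespace Pool.Agent.Q289.PK

open FreeGroup MeasureTheory Measure Finset
open Pool.Agent.TH996.Park Pool.Agent.TH996.Parking
open scoped ENNReal

/-- generating function of the visits -/
noncomputable def Fg (p : ℝ) (T : ℕ) (y : F2) (s : ℝ) : ℝ := ∫ ω, s ^ vv T y ω ∂(PP p)
/-- generating function of the departures -/
noncomputable def Gg (p : ℝ) (T : ℕ) (y : F2) (s : ℝ) : ℝ := ∫ ω, s ^ dd T y ω ∂(PP p)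

lemma meas_pow {f : (JJ → Bool) → ℕ} (hf : Measurable f) (s : ℝ) : Measurable fun ω => s ^ f ω :=
  (measurable_of_countable fun n : ℕ => s ^ n).comp hf

/-- the coordinates of the directions of the first `k t` cars at `z` at the times `t < T` -/
def Ak (T : ℕ) (z : F2) (k : Fin T → ℕ) : Finset JJ :=
  ((univ : Finset (Fin T)).sigma fun t => range (k t)).image
    fun q => .inr ((q.1 : ℕ), z, q.2)

lemma prod_Ak (T : ℕ) (z : F2) (k : Fin T → ℕ) (h : JJ → ℝ) :
    ∏ j ∈ Ak T z k, h j = ∏ t : Fin T, ∏ i ∈ range (k t), h (.inr ((t : ℕ), z, i)) := by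
  unfold Ak
  rw [prod_image, prod_sigma]
  rintro ⟨t, i⟩ _ ⟨t', i'⟩ _ e
  simp only [Sum.inr.injEq, Prod.mk.injEq, true_and] at e
  obtain ⟨e1, e2⟩ := e
  have e3 : t = t' := Fin.ext e1
  subst e3
  subst e2
  rfl

lemma Ak_disj (T : ℕ) (z : F2) (k : Fin T → ℕ) : Disjoint (SA z) (Ak T z k : Set JJ) := by
  rw [Set.disjoint_left]
  intro j h1 h2
  rw [Finset.mem_coe] at h2
  unfold Ak at h2
  rw [mem_image] at h2
  obtain ⟨q, -, rfl⟩ := h2
  exact h1.2 rfl

lemma pow_card (g : Bool) (s : ℝ) (n : ℕ) (b : ℕ → Bool) :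
    s ^ ((range n).filter fun i => b i = g).card = ∏ i ∈ range n, if b i = g then s else 1 := by
  rw [prod_ite, prod_const, prod_const_one, mul_one]

lemma pow_xx (T : ℕ) (z : F2) (g : Bool) (s : ℝ) (ω : JJ → Bool) :
    s ^ xx T z g ω = ∏ j ∈ Ak T z (fun t => cc t z ω), if ω j = g then s else 1 := by
  rw [prod_Ak]
  unfold xx
  rw [← prod_pow_eq_pow_sum, ← Fin.prod_univ_eq_prod_range (fun t => s ^ nn t z g ω)]
  refine prod_congr rfl fun t _ => ?_
  exact pow_card g s _ _

section

variable {p : ℝ} (hp : 0 ≤ p ∧ p ≤ 1)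

/-- the possible values of the numbers of cars -/
noncomputable def Kk (T : ℕ) (z : F2) : Finset (Fin T → ℕ) := Fintype.piFinset fun t => range (bd SS.nb t z + 1)

lemma mem_Kk (T : ℕ) (z : F2) (ω : JJ → Bool) : (fun t : Fin T => cc t z ω) ∈ Kk T z := by
  unfold Kk
  rw [Fintype.mem_piFinset]
  intro t
  rw [mem_range, Nat.lt_succ_iff]
  exact cs_le_bd SS.nb _ _ _ _ (c0_le _) t z

lemma split_Kk (T : ℕ) (z : F2) (ω : JJ → Bool) (Q : (Fin T → ℕ) → ℝ) :
    Q (fun t => cc t z ω) =
      ∑ k ∈ Kk T z, (if (fun t : Fin T => cc t z ω) = k then (1:ℝ) else 0) * Q k := by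
  simp_rw [ite_mul, one_mul, zero_mul]
  rw [sum_ite_eq, if_pos (mem_Kk T z ω)]

lemma meas_ind (T : ℕ) (z : F2) (k : Fin T → ℕ) :
    Measurable fun ω => if (fun t : Fin T => cc t z ω) = k then (1:ℝ) else 0 := by
  refine Measurable.ite ?_ measurable_const measurable_const
  have h : Measurable fun ω => (fun t : Fin T => cc t z ω) :=
    measurable_pi_lambda _ fun t => measurable_cc t z
  exact h (measurableSet_singleton k)

include hp in
lemma thin (T : ℕ) (z : F2) (g : Bool) {s : ℝ} (h0 : 0 ≤ s) (h1 : s ≤ 1) :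
    ∫ ω, s ^ xx T z g ω ∂(PP p) = Gg p T z ((1 + s) / 2) := by
  have i3 := par_prob hp
  have hPP : IsProbabilityMeasure (PP p) := by unfold PP; infer_instance
  have hmi := meas_ind T z
  have hint : ∀ (f : (JJ → Bool) → ℝ), Measurable f → (∀ ω, |f ω| ≤ 1) → Integrable f (PP p) :=
    fun f hf hb => Integrable.of_bound hf.aestronglyMeasurable 1 (ae_of_all _ fun ω => by
      rw [Real.norm_eq_abs]; exact hb ω)
  have hprod : ∀ k : Fin T → ℕ, Measurable fun ω : JJ → Bool =>
      ∏ j ∈ Ak T z k, if ω j = g then s else 1 := fun k =>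
    Finset.measurable_fun_prod _ fun j _ =>
      (measurable_of_countable fun b : Bool => if b = g then s else (1:ℝ)).comp
        (measurable_pi_apply j)
  have hind01 : ∀ k ω, (0:ℝ) ≤ (if (fun t : Fin T => cc t z ω) = k then (1:ℝ) else 0) ∧
      (if (fun t : Fin T => cc t z ω) = k then (1:ℝ) else 0) ≤ 1 := by
    intro k ω
    split_ifs <;> norm_num
  have hprod01 : ∀ (k : Fin T → ℕ) (ω : JJ → Bool),
      0 ≤ ∏ j ∈ Ak T z k, (if ω j = g then s else 1) ∧
      ∏ j ∈ Ak T z k, (if ω j = g then s else 1) ≤ 1 := by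
    intro k ω
    refine ⟨prod_nonneg fun j _ => ?_, prod_le_one (fun j _ => ?_) fun j _ => ?_⟩ <;>
      split_ifs <;> linarith
  -- left hand side
  have e1 : ∫ ω, s ^ xx T z g ω ∂(PP p) = ∑ k ∈ Kk T z,
      (∫ ω, (if (fun t : Fin T => cc t z ω) = k then (1:ℝ) else 0) ∂(PP p)) *
        ((1 + s) / 2) ^ ∑ t, k t := by
    have e2 : ∀ ω, s ^ xx T z g ω = ∑ k ∈ Kk T z,
        (if (fun t : Fin T => cc t z ω) = k then (1:ℝ) else 0) *
          ∏ j ∈ Ak T z k, (if ω j = g then s else 1) := by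
      intro ω
      rw [pow_xx]
      exact split_Kk T z ω fun k => ∏ j ∈ Ak T z k, (if ω j = g then s else 1)
    simp_rw [e2]
    rw [integral_finsetSum]
    · refine sum_congr rfl fun k _ => ?_
      have e3 : ∫ ω, (if (fun t : Fin T => cc t z ω) = k then (1:ℝ) else 0) *
          ∏ j ∈ Ak T z k, (if ω j = g then s else 1) ∂(PP p) =
          (∫ ω, (if (fun t : Fin T => cc t z ω) = k then (1:ℝ) else 0) ∂(PP p)) *
          ∫ ω, ∏ j ∈ Ak T z k, (if ω j = g then s else 1) ∂(PP p) := by
        refine integral_dep (fun j => bern (par p j)) (Ak_disj T z k) (hmi k) (hprod k) ?_ ?_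
        · intro ω ω' h
          have : (fun t : Fin T => cc t z ω) = fun t : Fin T => cc t z ω' := by
            funext t
            exact (dep_cf t z).1 h
          simp only [this]
        · intro ω ω' h
          refine prod_congr rfl fun j hj => ?_
          rw [h j hj]
      rw [e3]
      congr 1
      have e4 := integral_prod_coord (fun j => bern (par p j)) (Ak T z k)
        (fun _ b => if b = g then s else 1)
      refine e4.trans ?_
      have e5 : ∀ j ∈ Ak T z k, ∫ b, (if b = g then s else 1) ∂(bern (par p j)) =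
          (1 + s) / 2 := by
        intro j hj
        unfold Ak at hj
        rw [mem_image] at hj
        obtain ⟨q, -, rfl⟩ := hj
        show ∫ b, (if b = g then s else 1) ∂(bern (1 / 2)) = (1 + s) / 2
        rw [integral_bern (by norm_num) (by norm_num)]
        cases g <;> simp <;> ring
      rw [prod_congr rfl e5, prod_Ak T z k (fun _ => (1 + s) / 2)]
      simp_rw [prod_const, card_range]
      rw [prod_pow_eq_pow_sum]
    · intro k _
      refine hint _ ((hmi k).mul (hprod k)) fun ω => ?_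
      obtain ⟨a1, a2⟩ := hind01 k ω
      obtain ⟨b1, b2⟩ := hprod01 k ω
      rw [abs_of_nonneg (mul_nonneg a1 b1)]
      exact mul_le_one₀ a2 b1 b2
  have e6 : Gg p T z ((1 + s) / 2) = ∑ k ∈ Kk T z,
      (∫ ω, (if (fun t : Fin T => cc t z ω) = k then (1:ℝ) else 0) ∂(PP p)) *
        ((1 + s) / 2) ^ ∑ t, k t := by
    unfold Gg
    have e2 : ∀ ω, ((1 + s) / 2) ^ dd T z ω = ∑ k ∈ Kk T z,
        (if (fun t : Fin T => cc t z ω) = k then (1:ℝ) else 0) * ((1 + s) / 2) ^ ∑ t, k t := by
      intro ω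
      rw [← split_Kk T z ω fun k => ((1 + s) / 2) ^ ∑ t, k t]
      congr 1
      exact (Fin.sum_univ_eq_sum_range (fun t => cc t z ω) T).symm
    simp_rw [e2]
    rw [integral_finsetSum]
    · refine sum_congr rfl fun k _ => ?_
      rw [integral_mul_const]
    · intro k _
      refine Integrable.mul_const (hint _ (hmi k) fun ω => ?_) _
      obtain ⟨a1, a2⟩ := hind01 k ω
      rw [abs_of_nonneg a1]; exact a2
  rw [e1, e6]

include hp in
lemma Fg_eq (T : ℕ) (y : F2) {s : ℝ} (h0 : 0 ≤ s) (h1 : s ≤ 1) :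
    Fg p T y s = Gg p T (y * (of true)⁻¹) ((1 + s) / 2) *
      Gg p T (y * (of false)⁻¹) ((1 + s) / 2) := by
  have i3 := par_prob hp
  unfold Fg
  simp_rw [vv_eq, pow_add]
  have h := integral_dep (fun j => bern (par p j)) (SB_disj y)
    (meas_pow (measurable_xx T (y * (of true)⁻¹) true) s)
    (meas_pow (measurable_xx T (y * (of false)⁻¹) false) s)
    (fun ω ω' h => by rw [dep_xx T _ true h]) (fun ω ω' h => by rw [dep_xx T _ false h])
  refine h.trans ?_
  rw [← thin hp T _ true h0 h1, ← thin hp T _ false h0 h1]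
  rfl

lemma dep_vv (T : ℕ) (y : F2) :
    DependsOn (vv T y) (SB (y * (of true)⁻¹) ∪ SB (y * (of false)⁻¹)) := by
  intro ω ω' h
  rw [vv_eq, vv_eq, dep_xx T _ true fun j hj => h j (Or.inl hj),
    dep_xx T _ false fun j hj => h j (Or.inr hj)]

lemma disj_vv (y : F2) :
    Disjoint ({.inl y} : Set JJ) (SB (y * (of true)⁻¹) ∪ SB (y * (of false)⁻¹)) := by
  rw [Set.disjoint_singleton_left]
  rintro (h | h)
  · exact not_mem_SB y true h
  · exact not_mem_SB y false h

include hp in
lemma indep_eta (T : ℕ) (y : F2) (h : Bool → ℝ) (Q : ℕ → ℝ) :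
    ∫ ω, h (ω (.inl y)) * Q (vv T y ω) ∂(PP p) =
      (p * h true + (1 - p) * h false) * ∫ ω, Q (vv T y ω) ∂(PP p) := by
  have i3 := par_prob hp
  have h1 := integral_dep (fun j => bern (par p j)) (disj_vv y)
    (f := fun ω => h (ω (.inl y))) (g := fun ω => Q (vv T y ω))
    ((measurable_of_countable h).comp (measurable_pi_apply _))
    ((measurable_of_countable Q).comp (measurable_vv T y))
    (fun ω ω' h2 => by show h (ω (.inl y)) = h (ω' (.inl y)); rw [h2 _ rfl])
    (fun ω ω' h2 => by show Q (vv T y ω) = Q (vv T y ω'); rw [dep_vv T y h2])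
  refine h1.trans ?_
  congr 1
  rw [integral_coord (fun j => bern (par p j)) (.inl y) h]
  exact integral_bern hp.1 hp.2 h

include hp in
lemma int_pow {f : (JJ → Bool) → ℕ} (hf : Measurable f) {s : ℝ} (h0 : 0 ≤ s) (h1 : s ≤ 1) :
    Integrable (fun ω => s ^ f ω) (PP p) := by
  have i3 := par_prob hp
  have hPP : IsProbabilityMeasure (PP p) := by unfold PP; infer_instance
  refine Integrable.of_bound (meas_pow hf s).aestronglyMeasurable 1 (ae_of_all _ fun ω => ?_)
  rw [Real.norm_eq_abs, abs_of_nonneg (pow_nonneg h0 _)]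
  exact pow_le_one₀ h0 h1

include hp in
lemma Gg_succ (T : ℕ) (y : F2) {s : ℝ} (h0 : 0 < s) (h1 : s ≤ 1) :
    Gg p (T + 1) y s = p * s * Fg p T y s +
      (1 - p) * ((Fg p T y s - Fg p T y 0) / s + Fg p T y 0) := by
  have i3 := par_prob hp
  have hPP : IsProbabilityMeasure (PP p) := by unfold PP; infer_instance
  have e1 : ∀ ω, s ^ dd (T + 1) y ω =
      (if ω (.inl y) then (1:ℝ) else 0) * (s * s ^ vv T y ω) +
      (if ω (.inl y) then (0:ℝ) else 1) *
        ((s ^ vv T y ω - 0 ^ vv T y ω) / s + 0 ^ vv T y ω) := by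
    intro ω
    obtain ⟨i1, i2⟩ := dd_rec T y ω
    by_cases h : ω (.inl y) = true
    · rw [(i1 h).2, if_pos h, if_pos h, pow_succ]; ring
    · have h' : ω (.inl y) = false := by simpa using h
      rw [(i2 h').2, if_neg h, if_neg h]
      rcases Nat.eq_zero_or_pos (vv T y ω) with h2 | h2
      · rw [h2]; simp
      · obtain ⟨n, hn⟩ := Nat.exists_eq_succ_of_ne_zero h2.ne'
        rw [hn]
        simp only [Nat.succ_eq_add_one, Nat.add_sub_cancel, pow_succ, mul_zero]
        field_simp
        ring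
  have hi := int_pow hp (measurable_vv T y) h0.le h1
  have hi0 := int_pow hp (measurable_vv T y) le_rfl zero_le_one
  have hm1 : Measurable fun ω : JJ → Bool => (if ω (.inl y) then (1:ℝ) else 0) :=
    (measurable_of_countable fun b : Bool => if b then (1:ℝ) else 0).comp (measurable_pi_apply _)
  have hm2 : Measurable fun ω : JJ → Bool => (if ω (.inl y) then (0:ℝ) else 1) :=
    (measurable_of_countable fun b : Bool => if b then (0:ℝ) else 1).comp (measurable_pi_apply _)
  unfold Gg
  simp_rw [e1]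
  rw [integral_add]
  · rw [indep_eta hp T y (fun b => if b then (1:ℝ) else 0) (fun n => s * s ^ n),
      indep_eta hp T y (fun b => if b then (0:ℝ) else 1)
        (fun n => (s ^ n - 0 ^ n) / s + 0 ^ n)]
    have hd : Integrable (fun ω => (s ^ vv T y ω - 0 ^ vv T y ω) / s) (PP p) :=
      (hi.sub hi0).div_const s
    have e2 : ∫ ω, ((s ^ vv T y ω - 0 ^ vv T y ω) / s + 0 ^ vv T y ω) ∂(PP p) =
        (Fg p T y s - Fg p T y 0) / s + Fg p T y 0 := by
      rw [integral_add hd hi0, integral_div, integral_sub hi hi0]; rfl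
    rw [integral_const_mul, e2]
    simp only [if_true, Bool.false_eq_true, if_false]
    unfold Fg
    ring
  · refine Integrable.bdd_mul (c := 1) (hi.const_mul s) hm1.aestronglyMeasurable
      (ae_of_all _ fun ω => ?_)
    split_ifs <;> simp
  · refine Integrable.bdd_mul (c := 1) (((hi.sub hi0).div_const s).add hi0)
      hm2.aestronglyMeasurable (ae_of_all _ fun ω => ?_)
    split_ifs <;> simp

end

end Pool.Agent.Q289.PK
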